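import Mathlib

set_option autoImplicit false

namespace Pool.Agent.Results.MP_3dbc4a_an.WildAttractor

open Set Filter Topology MeasureTheory

noncomputable section

/-- The real Henon map `(x, y) ↦ (p(x) - b y, x)` of the plane. -/
def henon (p : Polynomial ℝ) (b : ℝ) (z : ℝ × ℝ) : ℝ × ℝ := (p.eval z.1 - b * z.2, z.1)

/-- The `ω`-limit set of the forward orbit of `z` under `f`: the cluster points of `f^n(z)`. -/
def omega (f : ℝ × ℝ → ℝ × ℝ) (z : ℝ × ℝ) : Set (ℝ × ℝ) :=
  {w | MapClusterPt w atTop (fun n : ℕ => f^[n] z)}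

/-- The basin of `Λ`. -/
def basin (f : ℝ × ℝ → ℝ × ℝ) (Λ : Set (ℝ × ℝ)) : Set (ℝ × ℝ) :=
  {z | (omega f z).Nonempty ∧ omega f z ⊆ Λ}

/-- Transitive compact sets: `f(T) = T` and some `z ∈ T` has `ω(z) = T`. -/
def IsTransitiveSet (f : ℝ × ℝ → ℝ × ℝ) (T : Set (ℝ × ℝ)) : Prop :=
  IsCompact T ∧ f '' T = T ∧ ∃ z ∈ T, omega f z = T

/-- Cantor sets: nonempty, compact, perfect, totally disconnected. -/
def IsCantorSet (Λ : Set (ℝ × ℝ)) : Prop :=
  Λ.Nonempty ∧ IsCompact Λ ∧ Perfect Λ ∧ IsTotallyDisconnected Λ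

/-- Wild attractors: invariant Cantor sets attracting a set of positive Lebesgue measure and
strictly contained in a transitive set. -/
def IsWildAttractor (f : ℝ × ℝ → ℝ × ℝ) (Λ : Set (ℝ × ℝ)) : Prop :=
  IsCantorSet Λ ∧ f '' Λ = Λ ∧ 0 < volume (basin f Λ) ∧ ∃ T, IsTransitiveSet f T ∧ Λ ⊂ T

/-! ### The one-dimensional polynomial -/

/-- The cubic `x (1 - x) (3/2 + 24 x)`. -/
def P (x : ℝ) : ℝ := x * (1 - x) * (3 / 2 + 24 * x)

/-- The two branch intervals. -/
def I (i : Bool) : Set ℝ := if i then Icc (9 / 10) 1 else Icc 0 (1 / 3)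

lemma I_sub (i : Bool) {x : ℝ} (h : x ∈ I i) : 0 ≤ x ∧ x ≤ 1 := by
  cases i
  · simp only [I, Bool.false_eq_true, if_false, mem_Icc] at h
    constructor <;> linarith [h.1, h.2]
  · simp only [I, if_true, mem_Icc] at h
    constructor <;> linarith [h.1, h.2]

lemma P_continuous : Continuous P := by unfold P; fun_prop

/-- The uniform weak expansion on each branch. -/
lemma P_expand (i : Bool) {x y : ℝ} (hx : x ∈ I i) (hy : y ∈ I i) :
    |x - y| * (3 / 2 + 6 * |x - y|) ≤ |P x - P y| := by
  wlog hxy : y ≤ x generalizing x y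
  · have := this hy hx (by linarith)
    rwa [abs_sub_comm x y, abs_sub_comm (P x) (P y)]
  have h0 : 0 ≤ x - y := by linarith
  rw [abs_of_nonneg h0]
  have hP : P x - P y = (x - y) * (3 / 2 + 45 / 2 * (x + y) - 24 * (x ^ 2 + x * y + y ^ 2)) := by
    unfold P; ring
  cases i
  · simp only [I, Bool.false_eq_true, if_false, mem_Icc] at hx hy
    have h1 : 3 / 2 + 6 * (x - y) ≤ 3 / 2 + 45 / 2 * (x + y) - 24 * (x ^ 2 + x * y + y ^ 2) := by
      nlinarith [mul_nonneg hx.1 hy.1, mul_nonneg (sub_nonneg.2 hx.2) hx.1,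
        mul_nonneg (sub_nonneg.2 hy.2) hy.1, mul_nonneg (sub_nonneg.2 hy.2) hx.1,
        mul_nonneg (sub_nonneg.2 hx.2) hy.1]
    rw [hP]
    calc (x - y) * (3 / 2 + 6 * (x - y)) ≤ _ := mul_le_mul_of_nonneg_left h1 h0
      _ ≤ _ := le_abs_self _
  · simp only [I, if_true, mem_Icc] at hx hy
    have h1 : 3 / 2 + 6 * (x - y) ≤
        -(3 / 2 + 45 / 2 * (x + y) - 24 * (x ^ 2 + x * y + y ^ 2)) := by
      nlinarith [mul_nonneg (sub_nonneg.2 hx.1) (sub_nonneg.2 hy.1), sq_nonneg (x - 9/10),
        sq_nonneg (y - 9/10)]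
    rw [hP]
    calc (x - y) * (3 / 2 + 6 * (x - y)) ≤ (x - y) * _ := mul_le_mul_of_nonneg_left h1 h0
      _ = -((x - y) * (3 / 2 + 45 / 2 * (x + y) - 24 * (x ^ 2 + x * y + y ^ 2))) := by ring
      _ ≤ _ := neg_le_abs _

/-- From a bound on the images to a bound on the arguments. -/
lemma step_bound (i : Bool) {x y D : ℝ} (k : ℕ) (hx : x ∈ I i) (hy : y ∈ I i)
    (hD : |P x - P y| ≤ 3 / 2 * D) (hk : D ≤ 1 / ((k : ℝ) + 1)) :
    |x - y| ≤ 1 / ((k : ℝ) + 2) := by
  by_contra hcon
  push Not at hcon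
  have h1 := P_expand i hx hy
  have hk0 : (0 : ℝ) ≤ k := Nat.cast_nonneg k
  have h2 : 0 < 1 / ((k : ℝ) + 2) := by positivity
  have h3 : 1 / ((k : ℝ) + 2) * (3 / 2 + 6 * (1 / ((k : ℝ) + 2))) <
      |x - y| * (3 / 2 + 6 * |x - y|) := by
    apply mul_lt_mul'' hcon _ h2.le (by positivity)
    linarith
  have h4 : 3 / 2 * (1 / ((k : ℝ) + 1)) ≤
      1 / ((k : ℝ) + 2) * (3 / 2 + 6 * (1 / ((k : ℝ) + 2))) := by
    rw [div_add' _ _ _ (by positivity : ((2 : ℝ)) ≠ 0)]
    field_simp
    nlinarith
  have : 3 / 2 * D ≤ 3 / 2 * (1 / ((k : ℝ) + 1)) := by linarith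
  linarith

lemma exists_branch (i : Bool) (u : ℝ) (h0 : 0 ≤ u) (h1 : u ≤ 3 / 2) : ∃ x ∈ I i, P x = u := by
  cases i
  · have h : Icc (P 0) (P (1 / 3)) ⊆ P '' Icc 0 (1 / 3) :=
      intermediate_value_Icc (by norm_num) P_continuous.continuousOn
    have h2 : u ∈ Icc (P 0) (P (1 / 3)) := by
      constructor
      · unfold P; linarith
      · unfold P; norm_num; linarith
    obtain ⟨x, hx, hxu⟩ := h h2
    exact ⟨x, by simpa only [I, Bool.false_eq_true, if_false] using hx, hxu⟩
  · have h : Icc (P 1) (P (9 / 10)) ⊆ P '' Icc (9 / 10) 1 :=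
      intermediate_value_Icc' (by norm_num) P_continuous.continuousOn
    have h2 : u ∈ Icc (P 1) (P (9 / 10)) := by
      constructor
      · unfold P; linarith
      · unfold P; norm_num; linarith
    obtain ⟨x, hx, hxu⟩ := h h2
    exact ⟨x, by simpa only [I, if_true] using hx, hxu⟩

/-- The inverse branches. -/
def g (i : Bool) (u : ℝ) : ℝ :=
  if h : 0 ≤ u ∧ u ≤ 3 / 2 then (exists_branch i u h.1 h.2).choose else
    (exists_branch i 0 le_rfl (by norm_num)).choose

lemma g_mem (i : Bool) (u : ℝ) : g i u ∈ I i := by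
  unfold g
  split_ifs with h
  · exact (exists_branch i u h.1 h.2).choose_spec.1
  · exact (exists_branch i 0 le_rfl (by norm_num)).choose_spec.1

lemma P_g (i : Bool) (u : ℝ) (h0 : 0 ≤ u) (h1 : u ≤ 3 / 2) : P (g i u) = u := by
  unfold g
  rw [dif_pos ⟨h0, h1⟩]
  exact (exists_branch i u h0 h1).choose_spec.2

/-! ### Orbits with a prescribed itinerary -/

/-- `x` is a full orbit with itinerary `s`. -/
def Sol (s : ℤ → Bool) (x : ℤ → ℝ) : Prop :=
  ∀ n, x n ∈ I (s n) ∧ P (x n) = x (n + 1) + x (n - 1) / 2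

lemma diff_bound {a b c d D : ℝ} (h1 : |a - b| ≤ D) (h2 : |c - d| ≤ D) :
    |(a + c / 2) - (b + d / 2)| ≤ 3 / 2 * D := by
  rw [abs_le] at *
  constructor <;> linarith [h1.1, h1.2, h2.1, h2.2]

lemma compare {s s' : ℤ → Bool} {x x' : ℤ → ℝ} (hx : Sol s x) (hx' : Sol s' x') :
    ∀ (k : ℕ) (n : ℤ), (∀ m : ℤ, |m - n| < k → s m = s' m) → |x n - x' n| ≤ 1 / ((k : ℝ) + 1) := by
  intro k
  induction k with
  | zero =>
    intro n _
    have h1 := I_sub _ (hx n).1
    have h2 := I_sub _ (hx' n).1
    rw [abs_le]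
    norm_num
    constructor <;> linarith [h1.1, h1.2, h2.1, h2.2]
  | succ k ih =>
    intro n hn
    have hs : s n = s' n := hn n (by push_cast; simp)
    have i1 := ih (n + 1) (fun m hm => hn m (by
      rw [abs_lt] at *; push_cast; constructor <;> linarith [hm.1, hm.2]))
    have i2 := ih (n - 1) (fun m hm => hn m (by
      rw [abs_lt] at *; push_cast; constructor <;> linarith [hm.1, hm.2]))
    have hb := diff_bound i1 i2
    rw [← (hx n).2, ← (hx' n).2] at hb
    have h3 := step_bound (s n) k (hx n).1 (by rw [hs]; exact (hx' n).1) hb le_rfl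
    push_cast
    rw [show (k : ℝ) + 1 + 1 = k + 2 by ring]
    exact h3

lemma sol_unique {s : ℤ → Bool} {x x' : ℤ → ℝ} (hx : Sol s x) (hx' : Sol s x') : x = x' := by
  funext n
  have h : ∀ k : ℕ, |x n - x' n| ≤ 1 / ((k : ℝ) + 1) := fun k => compare hx hx' k n (fun _ _ => rfl)
  have h2 : |x n - x' n| ≤ 0 := ge_of_tendsto' tendsto_one_div_add_atTop_nhds_zero_nat h
  have h3 : x n - x' n = 0 := abs_eq_zero.1 (le_antisymm h2 (abs_nonneg _))
  linarith

/-- Approximate orbits with a prescribed itinerary. -/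
def approx (s : ℤ → Bool) : ℕ → ℤ → ℝ
  | 0 => fun _ => 0
  | k + 1 => fun n => g (s n) (approx s k (n + 1) + approx s k (n - 1) / 2)

lemma approx_mem (s : ℤ → Bool) (k : ℕ) (n : ℤ) : 0 ≤ approx s k n ∧ approx s k n ≤ 1 := by
  cases k with
  | zero => simp [approx]
  | succ k => exact I_sub _ (g_mem _ _)

lemma approx_sum (s : ℤ → Bool) (k : ℕ) (n : ℤ) :
    0 ≤ approx s k (n + 1) + approx s k (n - 1) / 2 ∧
      approx s k (n + 1) + approx s k (n - 1) / 2 ≤ 3 / 2 := by
  have h1 := approx_mem s k (n + 1)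
  have h2 := approx_mem s k (n - 1)
  constructor <;> linarith [h1.1, h1.2, h2.1, h2.2]

lemma approx_bound (s : ℤ → Bool) (j : ℕ) : ∀ (k : ℕ) (n : ℤ),
    |approx s (k + j) n - approx s k n| ≤ 1 / ((k : ℝ) + 1) := by
  intro k
  induction k with
  | zero =>
    intro n
    have h1 := approx_mem s (0 + j) n
    have h2 := approx_mem s 0 n
    rw [abs_le]
    norm_num at *
    constructor <;> linarith [h1.1, h1.2, h2.1, h2.2]
  | succ k ih =>
    intro n
    have hb := diff_bound (ih (n + 1)) (ih (n - 1))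
    have e1 := approx_sum s (k + j) n
    have e2 := approx_sum s k n
    have hb2 : |P (approx s (k + 1 + j) n) - P (approx s (k + 1) n)| ≤
        3 / 2 * (1 / ((k : ℝ) + 1)) := by
      have e3 : k + 1 + j = (k + j) + 1 := by ring
      rw [e3]
      show |P (g (s n) _) - P (g (s n) _)| ≤ _
      rw [P_g _ _ e1.1 e1.2, P_g _ _ e2.1 e2.2]
      exact hb
    have m1 : approx s (k + 1 + j) n ∈ I (s n) := by
      have e3 : k + 1 + j = (k + j) + 1 := by ring
      rw [e3]
      exact g_mem _ _
    have h3 := step_bound (s n) k m1 (g_mem _ _ : approx s (k + 1) n ∈ I (s n)) hb2 le_rfl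
    push_cast
    rw [show (k : ℝ) + 1 + 1 = k + 2 by ring]
    exact h3

lemma I_closed (i : Bool) : IsClosed (I i) := by
  cases i
  · simp only [I, Bool.false_eq_true, if_false]; exact isClosed_Icc
  · simp only [I, if_true]; exact isClosed_Icc

lemma exists_sol (s : ℤ → Bool) : ∃ x, Sol s x := by
  have hc : ∀ n, ∃ l, Tendsto (fun k => approx s k n) atTop (𝓝 l) := by
    intro n
    apply cauchySeq_tendsto_of_complete
    apply Metric.cauchySeq_iff'.2
    intro ε hε
    obtain ⟨N, hN⟩ := exists_nat_one_div_lt hε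
    refine ⟨N, fun m hm => ?_⟩
    obtain ⟨j, rfl⟩ := Nat.exists_eq_add_of_le hm
    rw [Real.dist_eq]
    exact (approx_bound s j N n).trans_lt hN
  choose x hx using hc
  refine ⟨x, fun n => ⟨?_, ?_⟩⟩
  · refine (I_closed (s n)).mem_of_tendsto (hx n) ?_
    filter_upwards [eventually_ge_atTop 1] with k hk
    obtain ⟨j, rfl⟩ := Nat.exists_eq_add_of_le' hk
    exact g_mem _ _
  · have h1 : Tendsto (fun k => P (approx s (k + 1) n)) atTop (𝓝 (P (x n))) :=
      (P_continuous.tendsto _).comp ((hx n).comp (tendsto_add_atTop_nat 1))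
    have h2 : Tendsto (fun k => approx s k (n + 1) + approx s k (n - 1) / 2) atTop
        (𝓝 (x (n + 1) + x (n - 1) / 2)) := (hx (n + 1)).add ((hx (n - 1)).div_const 2)
    refine tendsto_nhds_unique h1 (h2.congr fun k => ?_)
    have e2 := approx_sum s k n
    exact (P_g _ _ e2.1 e2.2).symm

/-- The orbit with itinerary `s`. -/
def X (s : ℤ → Bool) : ℤ → ℝ := (exists_sol s).choose

lemma X_sol (s : ℤ → Bool) : Sol s (X s) := (exists_sol s).choose_spec

/-- The shift. -/
def shift (s : ℤ → Bool) : ℤ → Bool := fun n => s (n + 1)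

lemma X_shift (s : ℤ → Bool) (n : ℤ) : X (shift s) n = X s (n + 1) := by
  have h : Sol (shift s) (fun n => X s (n + 1)) := by
    intro m
    have := X_sol s (m + 1)
    refine ⟨this.1, ?_⟩
    have h2 := this.2
    rw [show m + 1 - 1 = m by ring] at h2
    show P (X s (m + 1)) = X s (m + 1 + 1) + X s (m - 1 + 1) / 2
    rw [h2, show m - 1 + 1 = m by ring]
  exact congrFun (sol_unique (X_sol _) h) n

/-- The coding map. -/
def code (s : ℤ → Bool) : ℝ × ℝ := (X s 0, X s (-1))

/-- The polynomial of the Henon map. -/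
def poly : Polynomial ℝ :=
  Polynomial.C (-24) * Polynomial.X ^ 3 + Polynomial.C (45 / 2) * Polynomial.X ^ 2 +
    Polynomial.C (3 / 2) * Polynomial.X

lemma poly_eval (x : ℝ) : poly.eval x = P x := by
  unfold poly P
  simp
  ring

lemma poly_natDegree : poly.natDegree = 3 := by
  unfold poly
  compute_degree!

/-- The Henon map. -/
def f : ℝ × ℝ → ℝ × ℝ := henon poly (1 / 2)

lemma f_apply (z : ℝ × ℝ) : f z = (P z.1 - 1 / 2 * z.2, z.1) := by
  unfold f henon
  rw [poly_eval]

lemma f_code (s : ℤ → Bool) : f (code s) = code (shift s) := by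
  rw [f_apply]
  unfold code
  have h := (X_sol s 0).2
  rw [X_shift, X_shift]
  norm_num at h ⊢
  linarith

lemma iter_code (s : ℤ → Bool) (n : ℕ) : f^[n] (code s) = code (shift^[n] s) := by
  induction n generalizing s with
  | zero => rfl
  | succ n ih => rw [Function.iterate_succ_apply, f_code, ih, Function.iterate_succ_apply]

lemma code_continuous : Continuous code := by
  have h : ∀ n, Continuous fun s => X s n := by
    intro n
    rw [continuous_iff_continuousAt]
    intro s
    rw [ContinuousAt, Metric.tendsto_nhds]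
    intro ε hε
    obtain ⟨k, hk⟩ := exists_nat_one_div_lt hε
    have h1 : ∀ᶠ s' in 𝓝 s, ∀ m ∈ Finset.Icc (n - k) (n + k), s' m = s m := by
      rw [Filter.eventually_all_finset]
      intro m _
      exact (continuous_apply m).continuousAt.eventually
        ((isOpen_discrete {s m}).mem_nhds (mem_singleton _))
    filter_upwards [h1] with s' hs'
    rw [Real.dist_eq]
    refine (compare (X_sol s') (X_sol s) k n (fun m hm => hs' m ?_)).trans_lt hk
    rw [abs_lt] at hm
    rw [Finset.mem_Icc]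
    constructor <;> linarith [hm.1, hm.2]
  exact (h 0).prodMk (h (-1))

lemma I_disjoint {i j : Bool} {x : ℝ} (h1 : x ∈ I i) (h2 : x ∈ I j) : i = j := by
  cases i <;> cases j <;> simp only [I, Bool.false_eq_true, if_false, if_true, mem_Icc] at h1 h2
  · rfl
  · linarith [h1.2, h2.1]
  · linarith [h2.2, h1.1]
  · rfl

lemma code_injective : Function.Injective code := by
  intro s s' h
  have h0 : X s 0 = X s' 0 ∧ X s (-1) = X s' (-1) := by
    unfold code at h
    exact Prod.mk.inj h
  have key : ∀ n : ℤ, X s n = X s' n ∧ X s (n - 1) = X s' (n - 1) := by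
    intro n
    induction n using Int.induction_on with
    | zero => simpa using h0
    | succ n ih =>
      have e1 := (X_sol s n).2
      have e2 := (X_sol s' n).2
      rw [ih.1, ih.2] at e1
      constructor
      · linarith
      · rw [show (n : ℤ) + 1 - 1 = n by ring]; exact ih.1
    | pred n ih =>
      have e1 := (X_sol s (-n - 1)).2
      have e2 := (X_sol s' (-n - 1)).2
      rw [show -(n : ℤ) - 1 + 1 = -n by ring] at e1 e2
      rw [ih.1, ih.2] at e1
      exact ⟨ih.2, by linarith⟩
  funext n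
  have h1 := (X_sol s n).1
  have h2 := (X_sol s' n).1
  rw [(key n).1] at h1
  exact I_disjoint h1 h2

lemma code_embedding : Topology.IsClosedEmbedding code :=
  code_continuous.isClosedEmbedding code_injective

lemma shift_surjective : Function.Surjective shift := fun s =>
  ⟨fun n => s (n - 1), by funext n; simp [shift]⟩

lemma shift_iter (s : ℤ → Bool) (n : ℕ) (m : ℤ) : shift^[n] s m = s (m + n) := by
  induction n generalizing s with
  | zero => simp
  | succ n ih =>
    rw [Function.iterate_succ_apply, ih]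
    unfold shift
    congr 1
    push_cast
    ring

/-! ### A dense orbit of the shift -/

/-- A sequence that contains all finite words arbitrarily far to the right. -/
def dens : ℤ → Bool := fun q =>
  Nat.testBit (Nat.unpair (Nat.sqrt q.toNat)).1 (q.toNat - (Nat.sqrt q.toNat) ^ 2)

lemma dens_spec (t : ℤ → Bool) (k N : ℕ) :
    ∃ n : ℕ, N ≤ n ∧ ∀ m : ℤ, |m| ≤ k → dens (m + n) = t m := by
  set W : ℕ := Nat.ofBits (fun i : Fin (2 * k + 1) => t ((i : ℤ) - k)) with hW
  set j : ℕ := Nat.pair W (N + 2 * k) with hj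
  have hjN : N + 2 * k ≤ j := Nat.right_le_pair _ _
  refine ⟨j * j + k, ?_, ?_⟩
  · nlinarith
  · intro m hm
    rw [abs_le] at hm
    obtain ⟨i, hi⟩ : ∃ i : ℕ, (i : ℤ) = m + k := ⟨(m + k).toNat, by omega⟩
    have hi2 : i < 2 * k + 1 := by omega
    have e1 : (m + ((j * j + k : ℕ) : ℤ)).toNat = j * j + i := by
      have : (m + ((j * j + k : ℕ) : ℤ)) = ((j * j + i : ℕ) : ℤ) := by
        push_cast
        linarith
      rw [this]
      exact Int.toNat_natCast _
    unfold dens
    rw [e1, Nat.sqrt_add_eq _ (by omega), hj, Nat.unpair_pair]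
    have e2 : Nat.pair W (N + 2 * k) * Nat.pair W (N + 2 * k) + i -
        Nat.pair W (N + 2 * k) ^ 2 = i := by
      rw [sq]
      omega
    simp only [e2]
    rw [hW, Nat.testBit_ofBits_lt _ _ hi2]
    congr 1
    simp only
    omega

lemma dens_cluster (t : ℤ → Bool) : MapClusterPt t atTop (fun n : ℕ => shift^[n] dens) := by
  rw [mapClusterPt_iff_frequently]
  intro U hU
  obtain ⟨k, hk⟩ : ∃ k : ℕ, ∀ t' : ℤ → Bool, (∀ m : ℤ, |m| ≤ k → t' m = t m) → t' ∈ U := by
    by_contra hcon
    push Not at hcon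
    choose u hu1 hu2 using hcon
    have h1 : Tendsto u atTop (𝓝 t) := by
      rw [tendsto_pi_nhds]
      intro m
      refine tendsto_const_nhds.congr' ?_
      filter_upwards [eventually_ge_atTop m.natAbs] with k hk
      rw [hu1 k m (by rw [Int.abs_eq_natAbs]; exact_mod_cast hk)]
    obtain ⟨k, hk⟩ := (h1.eventually hU).exists
    exact hu2 k hk
  rw [frequently_atTop]
  intro N
  obtain ⟨n, hn, hm⟩ := dens_spec t k N
  exact ⟨n, hn, hk _ (fun m hm' => by rw [shift_iter]; exact hm m hm')⟩

/-! ### The transitive set and the Cantor set -/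

/-- The transitive set. -/
def T : Set (ℝ × ℝ) := range code

/-- A factor of the full shift which is again a set of orbits of `f` is transitive. -/
lemma transitive_of_factor (F : (ℤ → Bool) → ℤ → Bool) (hF : Continuous F)
    (hsh : ∀ s, shift (F s) = F (shift s)) : IsTransitiveSet f (range fun s => code (F s)) := by
  have hc : Continuous fun s => code (F s) := code_continuous.comp hF
  have hK : IsCompact (range fun s => code (F s)) := isCompact_range hc
  have hf : ∀ s, f (code (F s)) = code (F (shift s)) := fun s => by rw [f_code, hsh]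
  have hit : ∀ (n : ℕ) (s : ℤ → Bool), f^[n] (code (F s)) = code (F (shift^[n] s)) := by
    intro n
    induction n with
    | zero => intro s; rfl
    | succ n ih => intro s; rw [Function.iterate_succ_apply, hf, ih, Function.iterate_succ_apply]
  refine ⟨hK, ?_, code (F dens), ⟨dens, rfl⟩, ?_⟩
  · ext z
    constructor
    · rintro ⟨_, ⟨s, rfl⟩, rfl⟩
      exact ⟨shift s, (hf s).symm⟩
    · rintro ⟨s, rfl⟩
      obtain ⟨s', rfl⟩ := shift_surjective s
      exact ⟨code (F s'), ⟨s', rfl⟩, hf s'⟩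
  · apply Subset.antisymm
    · intro w hw
      have hw' : MapClusterPt w atTop (fun n : ℕ => f^[n] (code (F dens))) := hw
      by_contra hcon
      rw [mapClusterPt_iff_frequently] at hw'
      have h1 := hw' _ (hK.isClosed.isOpen_compl.mem_nhds hcon)
      obtain ⟨n, hn⟩ := h1.exists
      exact hn (by rw [hit]; exact ⟨_, rfl⟩)
    · rintro _ ⟨t, rfl⟩
      show MapClusterPt (code (F t)) atTop (fun n : ℕ => f^[n] (code (F dens)))
      have h1 := (dens_cluster t).continuousAt_comp (hc.continuousAt (x := t))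
      have h2 : ((fun s => code (F s)) ∘ fun n : ℕ => shift^[n] dens) =
          fun n : ℕ => f^[n] (code (F dens)) := by
        funext n
        rw [Function.comp_apply, hit]
      rwa [h2] at h1

lemma T_transitive : IsTransitiveSet f T := transitive_of_factor id continuous_id (fun _ => rfl)

/-- The golden mean subshift. -/
def S : Set (ℤ → Bool) := {s | ∀ n, ¬ (s n = true ∧ s (n + 1) = true)}

lemma S_closed : IsClosed S := by
  have h : S = ⋂ n, {s | ¬ (s n = true ∧ s (n + 1) = true)} := by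
    ext s
    simp [S]
  rw [h]
  refine isClosed_iInter fun n => ?_
  have hc : Continuous fun s : ℤ → Bool => (s n, s (n + 1)) :=
    (continuous_apply n).prodMk (continuous_apply (n + 1))
  have : {s : ℤ → Bool | ¬ (s n = true ∧ s (n + 1) = true)} =
      (fun s : ℤ → Bool => (s n, s (n + 1))) ⁻¹' {q | ¬ (q.1 = true ∧ q.2 = true)} := rfl
  rw [this]
  exact (isClosed_discrete _).preimage hc

/-- The invariant Cantor set. -/
def L : Set (ℝ × ℝ) := code '' S

lemma L_compact : IsCompact L := S_closed.isCompact.image code_continuous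

/-- A retraction of the full shift onto the golden mean shift. -/
def retr (s : ℤ → Bool) : ℤ → Bool := fun n => s n && !(s (n - 1))

lemma retr_continuous : Continuous retr := by
  refine continuous_pi fun n => ?_
  have hc : Continuous fun s : ℤ → Bool => (s n, s (n - 1)) :=
    (continuous_apply n).prodMk (continuous_apply (n - 1))
  exact (continuous_of_discreteTopology (f := fun q : Bool × Bool => q.1 && !q.2)).comp hc

lemma retr_shift (s : ℤ → Bool) : shift (retr s) = retr (shift s) := by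
  funext n
  simp only [shift, retr]
  rw [show n - 1 + 1 = n + 1 - 1 by ring]

lemma retr_mem (s : ℤ → Bool) : retr s ∈ S := by
  intro n
  simp only [retr]
  rw [show n + 1 - 1 = n by ring]
  cases s n <;> simp

lemma retr_of_mem {s : ℤ → Bool} (hs : s ∈ S) : retr s = s := by
  funext n
  simp only [retr]
  have := hs (n - 1)
  rw [show n - 1 + 1 = n by ring] at this
  revert this
  cases s n <;> cases s (n - 1) <;> simp

lemma L_eq : L = range fun s => code (retr s) := by
  ext z
  constructor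
  · rintro ⟨s, hs, rfl⟩
    exact ⟨s, by simp only [retr_of_mem hs]⟩
  · rintro ⟨s, rfl⟩
    exact ⟨retr s, retr_mem s, rfl⟩

lemma L_transitive : IsTransitiveSet f L := by
  rw [L_eq]
  exact transitive_of_factor retr retr_continuous retr_shift

lemma L_perfect : Perfect L := by
  refine ⟨L_compact.isClosed, ?_⟩
  rintro _ ⟨s, hs, rfl⟩
  rw [accPt_iff_nhds]
  intro U hU
  -- cut `s` after position `k`
  let A : ℕ → ℤ → Bool := fun k n => if n ≤ k then s n else false
  let B : ℕ → ℤ → Bool := fun k n => if n ≤ k then s n else decide (n = k + 2)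
  have hA : ∀ k, A k ∈ S := by
    intro k n
    simp only [A]
    have := hs n
    split_ifs <;> simp_all
  have hB : ∀ k, B k ∈ S := by
    intro k n
    simp only [B]
    have := hs n
    split_ifs with h1 h2
    · exact this
    · simp only [decide_eq_true_eq, not_and]
      intro _
      omega
    · omega
    · simp only [decide_eq_true_eq, not_and]
      omega
  have tA : Tendsto A atTop (𝓝 s) := by
    rw [tendsto_pi_nhds]
    intro m
    refine tendsto_const_nhds.congr' ?_
    filter_upwards [eventually_ge_atTop m.natAbs] with k hk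
    simp only [A]
    rw [if_pos (by omega)]
  have tB : Tendsto B atTop (𝓝 s) := by
    rw [tendsto_pi_nhds]
    intro m
    refine tendsto_const_nhds.congr' ?_
    filter_upwards [eventually_ge_atTop m.natAbs] with k hk
    simp only [B]
    rw [if_pos (by omega)]
  have hU' : code ⁻¹' U ∈ 𝓝 s := code_continuous.continuousAt.preimage_mem_nhds hU
  obtain ⟨k, hk1, hk2⟩ := ((tA.eventually hU').and (tB.eventually hU')).exists
  have hAB : A k ≠ B k := by
    intro h
    have := congrFun h (k + 2)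
    simp [A, B] at this
  by_cases hAs : A k = s
  · have hBs : B k ≠ s := fun h => hAB (hAs.trans h.symm)
    exact ⟨code (B k), ⟨hk2, _, hB k, rfl⟩, fun h => hBs (code_injective h)⟩
  · exact ⟨code (A k), ⟨hk1, _, hA k, rfl⟩, fun h => hAs (code_injective h)⟩

lemma L_totDisc : IsTotallyDisconnected L := by
  unfold L
  rw [code_embedding.isEmbedding.isTotallyDisconnected_image]
  exact isTotallyDisconnected_of_totallyDisconnectedSpace S

lemma L_ssubset : L ⊂ T := by
  refine ⟨?_, ?_⟩
  · rintro _ ⟨s, _, rfl⟩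
    exact ⟨s, rfl⟩
  · intro h
    obtain ⟨s, hs, hs'⟩ := h ⟨fun _ => true, rfl⟩
    have := code_injective hs'
    subst this
    exact hs 0 ⟨rfl, rfl⟩

lemma zero_mem : ((0 : ℝ), (0 : ℝ)) ∈ L := by
  refine ⟨fun _ => false, fun n => by simp, ?_⟩
  have h : Sol (fun _ => false) (fun _ => 0) := by
    intro n
    constructor
    · simp only [I, Bool.false_eq_true, if_false, mem_Icc]
      norm_num
    · unfold P; norm_num
  have h2 := sol_unique (X_sol (fun _ => false)) h
  unfold code
  rw [h2]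

/-! ### The basin of the saddle-node point -/

/-- A forward invariant region all of whose points are attracted by the origin. -/
def R : Set (ℝ × ℝ) := {z | -(1 / 1000) < z.1 ∧ z.1 < 0 ∧ 0 < z.1 - z.2 ∧ z.1 - z.2 < 60 * z.1 ^ 2}

lemma R_open : IsOpen R := by
  have c1 : Continuous fun z : ℝ × ℝ => z.1 := continuous_fst
  have c2 : Continuous fun z : ℝ × ℝ => z.1 - z.2 := continuous_fst.sub continuous_snd
  have c3 : Continuous fun z : ℝ × ℝ => 60 * z.1 ^ 2 := by fun_prop
  exact (isOpen_lt continuous_const c1).inter ((isOpen_lt c1 continuous_const).inter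
    ((isOpen_lt continuous_const c2).inter (isOpen_lt c2 c3)))

lemma R_nonempty : R.Nonempty := by
  refine ⟨(-(1 / 2000), -(1 / 2000) - 1 / 4000000), ?_⟩
  unfold R
  simp only [mem_ofPred_eq]
  norm_num

lemma R_step {z : ℝ × ℝ} (hz : z ∈ R) : f z ∈ R ∧ z.1 < (f z).1 := by
  obtain ⟨x, y⟩ := z
  obtain ⟨h1, h2, h3, h4⟩ := hz
  simp only at h1 h2 h3 h4
  rw [f_apply]
  simp only [R, mem_ofPred_eq]
  -- the new velocity
  set v' := (P x - 1 / 2 * y) - x with hv'
  have e : P x - 1 / 2 * y = x + v' := by rw [hv']; ring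
  have ev : v' = 1 / 2 * (x - y) + x ^ 2 * (45 / 2 - 24 * x) := by
    rw [hv']; unfold P; ring
  have hx2 : 0 < x ^ 2 := by nlinarith
  have hvpos : 0 < v' := by
    rw [ev]
    have : 0 < x ^ 2 * (45 / 2 - 24 * x) := mul_pos hx2 (by linarith)
    linarith
  have hvle : v' ≤ 52.524 * x ^ 2 := by
    rw [ev]
    have : x ^ 2 * (45 / 2 - 24 * x) ≤ x ^ 2 * (45 / 2 + 24 / 1000) :=
      mul_le_mul_of_nonneg_left (by linarith) hx2.le
    nlinarith
  have hxx : x ^ 2 < -x / 1000 := by nlinarith
  have hsmall : v' ≤ 0.052524 * (-x) := by nlinarith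
  rw [e]
  refine ⟨⟨by linarith, by nlinarith, by linarith, ?_⟩, by linarith⟩
  have h5 : 0.947476 * (-x) ≤ -(x + v') := by linarith
  have h6 : (0.947476 * (-x)) ^ 2 ≤ (x + v') ^ 2 := by
    have : 0 ≤ 0.947476 * (-x) := by linarith
    nlinarith
  nlinarith

lemma R_iter {z : ℝ × ℝ} (hz : z ∈ R) (n : ℕ) : f^[n] z ∈ R := by
  induction n generalizing z with
  | zero => exact hz
  | succ n ih => rw [Function.iterate_succ_apply]; exact ih (R_step hz).1

lemma R_tendsto {z : ℝ × ℝ} (hz : z ∈ R) : Tendsto (fun n : ℕ => f^[n] z) atTop (𝓝 (0, 0)) := by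
  have hmono : Monotone fun n : ℕ => (f^[n] z).1 := by
    refine monotone_nat_of_le_succ fun n => ?_
    rw [Function.iterate_succ_apply']
    exact (R_step (R_iter hz n)).2.le
  have hbdd : BddAbove (range fun n : ℕ => (f^[n] z).1) :=
    ⟨0, by rintro _ ⟨n, rfl⟩; exact (R_iter hz n).2.1.le⟩
  obtain ⟨l, hl⟩ : ∃ l, Tendsto (fun n : ℕ => (f^[n] z).1) atTop (𝓝 l) :=
    ⟨_, tendsto_atTop_ciSup hmono hbdd⟩
  have h2 : Tendsto (fun n : ℕ => (f^[n + 1] z).2) atTop (𝓝 l) := by
    refine hl.congr fun n => ?_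
    rw [Function.iterate_succ_apply', f_apply]
  have h2' : Tendsto (fun n : ℕ => (f^[n] z).2) atTop (𝓝 l) :=
    (tendsto_add_atTop_iff_nat (f := fun n : ℕ => (f^[n] z).2) 1).1 h2
  have h3 : Tendsto (fun n : ℕ => (f^[n + 1] z).1) atTop (𝓝 (P l - 1 / 2 * l)) := by
    have : (fun n : ℕ => (f^[n + 1] z).1) = fun n => P (f^[n] z).1 - 1 / 2 * (f^[n] z).2 := by
      funext n
      rw [Function.iterate_succ_apply', f_apply]
    rw [this]
    exact ((P_continuous.tendsto l).comp hl).sub (h2'.const_mul (1 / 2))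
  have h4 : P l - 1 / 2 * l = l :=
    tendsto_nhds_unique h3 ((tendsto_add_atTop_iff_nat (f := fun n : ℕ => (f^[n] z).1) 1).2 hl)
  have hl0 : l ≤ 0 := le_of_tendsto' hl fun n => (R_iter hz n).2.1.le
  have hl1 : l = 0 := by
    have : l ^ 2 * (45 / 2 - 24 * l) = 0 := by
      unfold P at h4
      linarith
    rcases mul_eq_zero.1 this with h | h
    · exact pow_eq_zero_iff (two_ne_zero) |>.1 h
    · linarith
  subst hl1
  exact hl.prodMk_nhds h2'

lemma R_basin : R ⊆ basin f L := by
  intro z hz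
  have ht := R_tendsto hz
  refine ⟨⟨(0, 0), ht.mapClusterPt⟩, ?_⟩
  intro w hw
  have hw' : MapClusterPt w atTop (fun n : ℕ => f^[n] z) := hw
  have : w = (0, 0) := by
    by_contra hne
    have hw2 : (𝓝 w ⊓ map (fun n : ℕ => f^[n] z) atTop).NeBot := hw'
    exact (disjoint_nhds_nhds.2 hne).mono_right ht |>.eq_bot ▸ hw2 |>.ne rfl
  rw [this]
  exact zero_mem

/-- Some real Henon map `(x, y) ↦ (p(x) - b y, x)`, `deg p ≥ 2`, `b ≠ 0`, has a wild attractor:
an invariant Cantor set whose basin has positive Lebesgue measure and which is strictly contained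
in a transitive set. This Cantor set is itself transitive. -/
theorem result : ∃ (p : Polynomial ℝ) (b : ℝ), 2 ≤ p.natDegree ∧ b ≠ 0 ∧
    ∃ Λ : Set (ℝ × ℝ), IsWildAttractor (henon p b) Λ ∧ IsTransitiveSet (henon p b) Λ := by
  refine ⟨poly, 1 / 2, by rw [poly_natDegree]; norm_num, by norm_num, L, ?_, L_transitive⟩
  refine ⟨⟨⟨_, zero_mem⟩, L_compact, L_perfect, L_totDisc⟩, L_transitive.2.1, ?_, T, T_transitive,
    L_ssubset⟩
  exact (R_open.measure_pos volume R_nonempty).trans_le (measure_mono R_basin)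

end

end Pool.Agent.Results.MP_3dbc4a_an.WildAttractor
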